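import Mathlib

/-!
The congruence `∑ D_k(3)³ ≡ (-5/p) ∑ (-1)^k D_k(-1/16)³ (mod p²)` of part (c) fails at `p = 5`.
-/

set_option autoImplicit false

namespace Pool.Agent.Results.MP_fb2c2a_nt.FiveFails

/-- `u ≡ v (mod p^m)` in the ring of rationals whose denominator is prime to `p`:
`u - v = p^m r` with the denominator of `r` not divisible by `p` -/
def CongMod (p m : ℕ) (u v : ℚ) : Prop := ∃ r : ℚ, ¬ p ∣ r.den ∧ u - v = (p : ℚ) ^ m * r

/-- `D_n(x) = ∑_{k ≤ n} binom(n,k) binom(n+k,k) x^k` -/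
def D (n : ℕ) (x : ℚ) : ℚ :=
  ∑ k ∈ Finset.range (n + 1), ((n.choose k : ℕ) : ℚ) * (((n + k).choose k : ℕ) : ℚ) * x ^ k

/-- The Legendre symbol `(a/p)` by Euler's criterion: `0` if `p ∣ a`, `1` if
`a^((p-1)/2) ≡ 1 (mod p)`, `-1` otherwise. -/
def leg (a : ℤ) (p : ℕ) : ℚ :=
  if a % p = 0 then 0 else if a ^ ((p - 1) / 2) % (p : ℤ) = 1 then 1 else -1

theorem not_congMod {p m : ℕ} (hp : p ≠ 0) {u v : ℚ} (h : p ∣ ((u - v) / (p : ℚ) ^ m).den) :
    ¬ CongMod p m u v := by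
  rintro ⟨r, hr, h1⟩
  apply hr
  have h2 : (u - v) / (p : ℚ) ^ m = r := by
    rw [h1]
    have : (p : ℚ) ^ m ≠ 0 := pow_ne_zero _ (by exact_mod_cast hp)
    field_simp
  rw [← h2]
  exact h

/-- At `p = 5` the first congruence of part (c) fails modulo `p²`: the right-hand side vanishes,
since `(-5/5) = 0`, and the left-hand side is not congruent to `0`. -/
theorem result : Nat.Prime 5 ∧ 3 < 5 ∧
    leg (-5) 5 = 0 ∧
    ¬ CongMod 5 2 (∑ k ∈ Finset.range 5, D k 3 ^ 3)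
      (leg (-5) 5 * ∑ k ∈ Finset.range 5, (-1) ^ k * D k (-1 / 16) ^ 3) ∧
    ¬ CongMod 5 2 (∑ k ∈ Finset.range 5, D k 3 ^ 3) 0 := by
  refine ⟨by norm_num, by norm_num, by simp [leg], ?_, ?_⟩ <;> exact not_congMod (by norm_num) (by decide +kernel)

end Pool.Agent.Results.MP_fb2c2a_nt.FiveFails
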